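import Pool.Agent.Helper1.RG.Defs

/-! Row H4 of the project RG (MP_c9c10f_co): conditional probabilities along the units. -/

set_option autoImplicit false

open MeasureTheory Complex
open scoped ComplexConjugate

namespace Pool.Agent.Helper52.RG
open Pool.Agent.Helper1.RG

/-! ### a measure preserving map and conditional expectations -/

lemma h4_ce {Ω : Type} (m m0 : MeasurableSpace Ω) (P : Measure Ω) [IsFiniteMeasure P]
    (T : Ω → Ω) (hT : MeasurePreserving T P P) (hm : m ≤ m0) (g : Ω → ℂ) (hg : Integrable g P) :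
    (fun ω => (P[g | m]) (T ω)) =ᵐ[P] P[fun ω => g (T ω) | m.comap T] := by
  have hm' : m.comap T ≤ m0 := by
    rintro s ⟨t, ht, rfl⟩
    exact hT.measurable (hm t ht)
  have hint : Integrable (P[g | m]) P := integrable_condExp
  have hcomp : Integrable (fun ω => (P[g | m]) (T ω)) P :=
    hT.integrable_comp_of_integrable hint
  refine ae_eq_condExp_of_forall_setIntegral_eq hm' (hT.integrable_comp_of_integrable hg)
    (fun s _ _ => hcomp.integrableOn) ?_ ?_
  · rintro s ⟨t, ht, rfl⟩ -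
    have h1 : ∫ x in T ⁻¹' t, (P[g | m]) (T x) ∂P = ∫ x in t, (P[g | m]) x ∂P := by
      have h2 := setIntegral_map (μ := P) (g := T) (f := P[g | m]) (s := t) (hm t ht)
        (by rw [hT.map_eq]; exact hint.aestronglyMeasurable) hT.measurable.aemeasurable
      rw [hT.map_eq] at h2
      exact h2.symm
    have h3 : ∫ x in T ⁻¹' t, g (T x) ∂P = ∫ x in t, g x ∂P := by
      have h2 := setIntegral_map (μ := P) (g := T) (f := g) (s := t) (hm t ht)
        (by rw [hT.map_eq]; exact hg.aestronglyMeasurable) hT.measurable.aemeasurable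
      rw [hT.map_eq] at h2
      exact h2.symm
    rw [h1, h3]
    exact setIntegral_condExp hm hg ht
  · have h1 : @StronglyMeasurable Ω ℂ _ (m.comap T) (fun ω => (P[g | m]) (T ω)) :=
      @StronglyMeasurable.comp_measurable Ω ℂ Ω _ m (m.comap T) _ _
        stronglyMeasurable_condExp (comap_measurable T)
    exact h1.aestronglyMeasurable

/-! ### the sigma algebras -/

lemma h4_sig (S : Set ℂ) :
    sig S = ⨆ x : S, MeasurableSpace.comap (ev (x : ℂ)) (borel ℂ) := by
  unfold sig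
  simp only [MeasurableSpace.pi, MeasurableSpace.comap_iSup, MeasurableSpace.comap_comp]
  rfl

lemma h4_mono {S S' : Set ℂ} (h : S ⊆ S') : sig S ≤ sig S' := by
  rw [h4_sig, h4_sig]
  exact iSup_le fun x => le_iSup (fun y : S' => MeasurableSpace.comap (ev (y : ℂ)) (borel ℂ))
    ⟨x.1, h x.2⟩

lemma h4_ev_shift (u x : ℂ) (χ : Om) : ev x (χ.mulShift u) = ev (u * x) χ := rfl

lemma h4_comap (u : ℂ) (S : Set ℂ) :
    (sig S).comap (fun χ : Om => χ.mulShift u) = sig ((fun x => u * x) '' S) := by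
  rw [h4_sig, h4_sig]
  simp only [MeasurableSpace.comap_iSup, MeasurableSpace.comap_comp]
  apply le_antisymm
  · refine iSup_le fun x => ?_
    exact le_iSup (fun y : ((fun x => u * x) '' S : Set ℂ) =>
      MeasurableSpace.comap (ev (y : ℂ)) (borel ℂ)) ⟨u * x.1, x.1, x.2, rfl⟩
  · refine iSup_le fun y => ?_
    obtain ⟨y, x, hx, rfl⟩ := y
    exact le_iSup (fun x : S => MeasurableSpace.comap
      ((ev (x : ℂ)) ∘ (fun χ : Om => χ.mulShift u)) (borel ℂ)) ⟨x, hx⟩

lemma h4_ms (u : ℂ) : Measurable (fun χ : Om => χ.mulShift u) := by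
  rw [measurable_iff_comap_le]
  show (sig Set.univ).comap (fun χ : Om => χ.mulShift u) ≤ sig Set.univ
  rw [h4_comap]
  exact h4_mono (Set.subset_univ _)

lemma h4_evm {S : Set ℂ} {x : ℂ} (hx : x ∈ S) : Measurable[sig S] (ev x) := by
  rw [measurable_iff_comap_le, h4_sig]
  exact le_iSup (fun y : S => MeasurableSpace.comap (ev (y : ℂ)) (borel ℂ)) ⟨x, hx⟩

lemma h4_evm' (x : ℂ) : Measurable (ev x) := h4_evm (S := Set.univ) (Set.mem_univ x)

lemma h4_norm (x : ℂ) (χ : Om) : ‖ev x χ‖ = 1 := Circle.norm_coe _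

lemma h4_ev_add (x y : ℂ) (χ : Om) : ev (x + y) χ = ev x χ * ev y χ := by
  unfold ev
  rw [AddChar.map_add_eq_mul]
  rfl

lemma h4_int (P : Measure Om) [IsProbabilityMeasure P] (x : ℂ) : Integrable (ev x) P := by
  refine Integrable.of_bound (h4_evm' x).aestronglyMeasurable 1 ?_
  exact Filter.Eventually.of_forall fun χ => le_of_eq (h4_norm x χ)

/-- `conj (ev x) E[ev x | m]` depends on the class of `x` only -/
lemma h4_cls (P : Measure Om) [IsProbabilityMeasure P] (S : Set ℂ) (x r : ℂ) (hr : r ∈ S) :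
    ∀ᵐ χ ∂P, conj (ev (x + r) χ) * (P[ev (x + r) | sig S]) χ =
      conj (ev x χ) * (P[ev x | sig S]) χ := by
  have hm : sig S ≤ instMeasOm := h4_mono (Set.subset_univ S)
  have h1 : P[ev (x + r) | sig S] =ᵐ[P] fun χ => ev r χ * (P[ev x | sig S]) χ := by
    have h2 : ev (x + r) = fun χ => ev r χ * ev x χ := by
      funext χ
      rw [h4_ev_add, mul_comm]
    rw [h2]
    have h3 : StronglyMeasurable[sig S] (ev r) := (h4_evm hr).stronglyMeasurable
    exact condExp_bilin_of_aestronglyMeasurable_left (ContinuousLinearMap.mul ℝ ℂ)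
      h3.aestronglyMeasurable (h2 ▸ h4_int P (x + r)) (h4_int P x)
  filter_upwards [h1] with χ hχ
  rw [hχ, h4_ev_add, map_mul]
  have h5 : conj (ev r χ) * ev r χ = 1 := by
    rw [← Complex.normSq_eq_conj_mul_self, Complex.normSq_eq_norm_sq, h4_norm]
    norm_num
  linear_combination (conj (ev x χ) * (P[ev x | sig S]) χ) * h5

/-! ### arithmetic -/

/-- `n / 5` is not in `R` for `0 < |n| < 5` -/
lemma h4_five (n : ℤ) (hn : n ≠ 0) (h5 : |n| < 5) : ((n : ℂ) / 5) ∉ RR := by
  rintro ⟨a, s, hs, h⟩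
  apply hs
  have h1 : (n : ℂ) * GaussianInt.toComplex s = 5 * GaussianInt.toComplex a := by
    rw [← h]
    ring
  have h2 : GaussianInt.toComplex ((n : GaussianInt) * s) =
      GaussianInt.toComplex ((5 : GaussianInt) * a) := by
    rw [map_mul, map_mul, map_intCast, map_ofNat]
    exact h1
  have h3 : (n : GaussianInt) * s = (5 : GaussianInt) * a := GaussianInt.toComplex_inj.1 h2
  have hre : n * s.re = 5 * a.re := by
    have := congrArg Zsqrtd.re h3
    simpa using this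
  have him : n * s.im = 5 * a.im := by
    have := congrArg Zsqrtd.im h3
    simpa using this
  have hp : IsCoprime (5 : ℤ) n := by
    have hp5 : Prime (5 : ℤ) := by norm_num
    rw [Prime.coprime_iff_not_dvd hp5]
    intro hd
    obtain ⟨c, hc⟩ := hd
    have : |n| = 5 * |c| := by rw [hc, abs_mul]; norm_num
    rcases eq_or_ne c 0 with h0 | h0
    · exact hn (by rw [hc, h0]; ring)
    · have := Int.one_le_abs h0
      omega
  obtain ⟨p, hp'⟩ : (5 : ℤ) ∣ s.re := hp.dvd_of_dvd_mul_left ⟨a.re, hre⟩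
  obtain ⟨q, hq'⟩ : (5 : ℤ) ∣ s.im := hp.dvd_of_dvd_mul_left ⟨a.im, him⟩
  refine ⟨⟨2, 1⟩ * ⟨p, q⟩, ?_⟩
  apply Zsqrtd.ext
  · simp [hp']
    ring
  · simp [hq']
    ring

/-- `k^j R = (2 - i)^(-j) R` -/
lemma h4_img (hA1 : ST_A1) (j : ℕ) : (fun x => kk ^ j * x) '' Rj 0 = Rj j := by
  obtain ⟨-, -, -, -, -, -, -, -, hk, -, -, -⟩ := hA1
  have h : ∀ (j : ℕ) (x : ℂ), x ∈ Rj 0 ↔ kk ^ j * x ∈ Rj j := by
    intro j
    induction j with
    | zero =>
      intro x
      rw [pow_zero, one_mul]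
    | succ j ih =>
      intro x
      rw [ih x, hk j (kk ^ j * x), pow_succ']
      rw [mul_assoc]
  have hk0 : kk ≠ 0 := by
    have h1 : ga ≠ 0 := by
      intro h0
      have := congrArg Complex.im h0
      simp [ga] at this
    have h2 : gb ≠ 0 := by
      intro h0
      have := congrArg Complex.im h0
      simp [gb] at this
    exact div_ne_zero h1 h2
  ext y
  constructor
  · rintro ⟨x, hx, rfl⟩
    exact (h j x).1 hx
  · intro hy
    have h1 : kk ^ j * ((kk ^ j)⁻¹ * y) = y := by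
      rw [← mul_assoc, mul_inv_cancel₀ (pow_ne_zero _ hk0), one_mul]
    exact ⟨(kk ^ j)⁻¹ * y, (h j _).2 (by rw [h1]; exact hy), h1⟩

lemma h4_R0 : Rj 0 = RR := by
  ext x
  show gb ^ 0 * x ∈ RR ↔ x ∈ RR
  rw [pow_zero, one_mul]

lemma h4_QUpow (hA1 : ST_A1) (j : ℕ) : kk ^ j ∈ QU := by
  obtain ⟨-, -, -, -, hk, -⟩ := hA1
  obtain ⟨hk1, hk2⟩ := hk
  refine ⟨?_, by rw [norm_pow, hk2, one_pow]⟩
  induction j with
  | zero => exact ⟨1, 0, by simp⟩
  | succ j ih =>
    obtain ⟨a, b, hab⟩ := ih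
    obtain ⟨c, d, hcd⟩ := hk1
    refine ⟨a * c - b * d, a * d + b * c, ?_⟩
    rw [pow_succ, hab, hcd]
    push_cast
    linear_combination (b * d : ℂ) * Complex.I_mul_I

lemma h4_mp (P : Measure Om) (hP : Inv P) (u : ℂ) (hu : u ∈ QU) :
    MeasurePreserving (fun χ : Om => χ.mulShift u) P P := ⟨h4_ms u, hP u hu⟩

/-- the conditional expectations after a shift -/
lemma h4_shift (P : Measure Om) [IsProbabilityMeasure P] (hP : Inv P) (u : ℂ) (hu : u ∈ QU)
    (S : Set ℂ) (x : ℂ) : ∀ᵐ χ ∂P, (P[ev x | sig S]) (χ.mulShift u) =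
      (P[ev (u * x) | sig ((fun x => u * x) '' S)]) χ := by
  have h := h4_ce (sig S) instMeasOm P _ (h4_mp P hP u hu) (h4_mono (Set.subset_univ S)) (ev x)
    (h4_int P x)
  rw [h4_comap] at h
  exact h

theorem st_H4 (hA1 : ST_A1) (hA2 : ST_A2) : ST_H4 := by
  intro P hPp hP
  refine ⟨fun j => ?_, fun u hu hu1 hu2 => ?_⟩
  · -- the times
    have h1 : ∀ a ∈ Finset.range 5, ∀ᵐ χ ∂P,
        (P[ev ((a : ℂ) * xj 0) | Fil 0]) (χ.mulShift (kk ^ j)) =
          (P[ev ((a : ℂ) * xj j) | Fil j]) χ := by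
      intro a _
      have h := h4_shift P hP (kk ^ j) (h4_QUpow hA1 j) (Rj 0) ((a : ℂ) * xj 0)
      rw [h4_img hA1] at h
      have h2 : kk ^ j * ((a : ℂ) * xj 0) = (a : ℂ) * xj j := by
        unfold xj
        ring
      rw [h2] at h
      exact h
    have h3 := (Finset.eventually_all (Finset.range 5)).2 h1
    filter_upwards [h3] with χ hχ
    unfold pj pp
    congr 1
    refine Finset.sum_congr rfl fun a ha => ?_
    rw [hχ a ha, h4_ev_shift]
    have h2 : kk ^ j * ((a : ℂ) * xj 0) = (a : ℂ) * xj j := by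
      unfold xj
      ring
    rw [h2]
  · -- the units of `R`
    obtain ⟨hZ, hR, -, -, -, -, -, hRj, -, -, hxj, -⟩ := hA1
    have hu0 : u ≠ 0 := by
      intro h0
      have := hu.2
      rw [h0, norm_zero] at this
      exact zero_ne_one this
    have himg : (fun x => u * x) '' Rj 0 = Rj 0 := by
      rw [h4_R0]
      ext y
      constructor
      · rintro ⟨x, hx, rfl⟩
        exact (hR u hu1 x hx).2.1
      · intro hy
        refine ⟨u⁻¹ * y, (hR _ hu2 y hy).2.1, ?_⟩
        show u * (u⁻¹ * y) = y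
        rw [← mul_assoc, mul_inv_cancel₀ hu0, one_mul]
    have hnat : ∀ a : ℕ, (a : ℂ) ∈ RR := fun a => hZ _ ⟨a, 0, by simp⟩
    have hcl : ∀ a : ℕ, ∃ b : ℕ, b < 5 ∧ u * ((a : ℂ) * xj 0) - b * xj 0 ∈ Rj 0 := by
      intro a
      refine hA2 0 _ ?_
      exact hRj 1 u hu1 _ (hRj 1 _ (hnat a) _ (hxj 0))
    choose σ hσ1 hσ2 using hcl
    have hinj : Set.InjOn σ (Finset.range 5 : Finset ℕ) := by
      intro a ha b hb hab
      have ha' := Finset.mem_range.1 (Finset.mem_coe.1 ha)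
      have hb' := Finset.mem_range.1 (Finset.mem_coe.1 hb)
      by_contra hne
      have h1 : u * ((a : ℂ) * xj 0) - σ a * xj 0 ∈ RR := h4_R0 ▸ hσ2 a
      have h2 : u * ((b : ℂ) * xj 0) - σ b * xj 0 ∈ RR := h4_R0 ▸ hσ2 b
      have h3 := (hR _ h1 _ h2).2.2
      have h4 := (hR _ hu2 _ h3).2.1
      have h5 : u⁻¹ * (u * ((a : ℂ) * xj 0) - σ a * xj 0 - (u * ((b : ℂ) * xj 0) - σ b * xj 0)) =
          (((a : ℤ) - (b : ℤ) : ℤ) : ℂ) / 5 := by
        rw [hab]
        unfold xj
        rw [pow_zero]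
        push_cast
        field_simp
        ring
      rw [h5] at h4
      refine h4_five _ ?_ ?_ h4
      · intro h6
        apply hne
        omega
      · rw [abs_lt]
        constructor <;> omega
    have hsurj : (Finset.range 5).image σ = Finset.range 5 := by
      apply Finset.eq_of_subset_of_card_le
      · intro b hb
        obtain ⟨a, -, rfl⟩ := Finset.mem_image.1 hb
        exact Finset.mem_range.2 (hσ1 a)
      · rw [Finset.card_image_of_injOn hinj]
    have h1 : ∀ a ∈ Finset.range 5, ∀ᵐ χ ∂P,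
        (P[ev ((a : ℂ) * xj 0) | Fil 0]) (χ.mulShift u) =
          (P[ev (u * ((a : ℂ) * xj 0)) | Fil 0]) χ := by
      intro a _
      have h := h4_shift P hP u hu (Rj 0) ((a : ℂ) * xj 0)
      rw [himg] at h
      exact h
    have h2 : ∀ a ∈ Finset.range 5, ∀ᵐ χ ∂P,
        conj (ev (u * ((a : ℂ) * xj 0)) χ) * (P[ev (u * ((a : ℂ) * xj 0)) | Fil 0]) χ =
          conj (ev ((σ a : ℂ) * xj 0) χ) * (P[ev ((σ a : ℂ) * xj 0) | Fil 0]) χ := by
      intro a _
      have h := h4_cls P (Rj 0) ((σ a : ℂ) * xj 0) _ (hσ2 a)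
      have h3 : (σ a : ℂ) * xj 0 + (u * ((a : ℂ) * xj 0) - σ a * xj 0) = u * ((a : ℂ) * xj 0) := by
        ring
      rw [h3] at h
      exact h
    have h3 := (Finset.eventually_all (Finset.range 5)).2 h1
    have h4 := (Finset.eventually_all (Finset.range 5)).2 h2
    filter_upwards [h3, h4] with χ hχ hχ2
    show (1 / 5 : ℝ) * ∑ a ∈ Finset.range 5, (conj (ev ((a : ℂ) * xj 0) (χ.mulShift u)) *
        (P[ev ((a : ℂ) * xj 0) | Fil 0]) (χ.mulShift u)).re =
      (1 / 5 : ℝ) * ∑ a ∈ Finset.range 5, (conj (ev ((a : ℂ) * xj 0) χ) *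
        (P[ev ((a : ℂ) * xj 0) | Fil 0]) χ).re
    congr 1
    have h5 : ∑ a ∈ Finset.range 5, (conj (ev ((a : ℂ) * xj 0) (χ.mulShift u)) *
        (P[ev ((a : ℂ) * xj 0) | Fil 0]) (χ.mulShift u)).re =
        ∑ a ∈ Finset.range 5, (conj (ev ((σ a : ℂ) * xj 0) χ) *
          (P[ev ((σ a : ℂ) * xj 0) | Fil 0]) χ).re := by
      refine Finset.sum_congr rfl fun a ha => ?_
      rw [hχ a ha, h4_ev_shift, hχ2 a ha]
    rw [h5]
    have h6 := Finset.sum_image (f := fun b : ℕ => (conj (ev ((b : ℂ) * xj 0) χ) *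
      (P[ev ((b : ℂ) * xj 0) | Fil 0]) χ).re) hinj
    rw [hsurj] at h6
    exact h6.symm

end Pool.Agent.Helper52.RG
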