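import Pool.Agent.Helper13.RG.Stmts

set_option autoImplicit false

namespace Pool.Agent.Helper52.RG

open Pool.Agent.Helper13.RG

section

variable {k K : Type} [Field k] [CharZero k] [Field K] [Algebra k K]

lemma ge2_const (O : ValuationSubring K) (h : ∀ c : k, algebraMap k K c ∈ O) (c : k) (hc : c ≠ 0) :
    O.valuation (algebraMap k K c) = 1 := by
  have h1 : O.valuation (algebraMap k K c) ≤ 1 := (O.valuation_le_one_iff _).2 (h c)
  have h2 : O.valuation (algebraMap k K c⁻¹) ≤ 1 := (O.valuation_le_one_iff _).2 (h c⁻¹)
  rw [map_inv₀, map_inv₀] at h2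
  have h3 : O.valuation (algebraMap k K c) ≠ 0 := by
    rw [Valuation.ne_zero_iff]
    intro h0
    exact hc ((algebraMap k K).injective (by rw [h0, map_zero]))
  refine le_antisymm h1 ?_
  by_contra hlt
  have hlt' := not_le.1 hlt
  have := (one_lt_inv₀ (zero_lt_iff.2 h3)).2 hlt'
  exact absurd h2 (not_le.2 this)

lemma ge2_zero (O : ValuationSubring K) (h : ∀ c : k, algebraMap k K c ∈ O) (c : k)
    (hc : O.valuation (algebraMap k K c) < 1) : c = 0 := by
  by_contra h0
  rw [ge2_const O h c h0] at hc
  exact lt_irrefl _ hc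

lemma ge2_sep (O O' : ValuationSubring K) (h : ∀ c : k, algebraMap k K c ∈ O)
    (hr : ∀ a ∈ O, ∃ c : k, O.valuation (a - algebraMap k K c) < 1)
    (h' : ∀ c : k, algebraMap k K c ∈ O') (hne : O ≠ O') :
    ∃ g : K, O.valuation g < 1 ∧ ¬ O'.valuation g < 1 := by
  by_contra hcon
  push Not at hcon
  apply hne
  apply le_antisymm
  · intro x hx
    obtain ⟨c, hc⟩ := hr x hx
    have h1 := hcon _ hc
    have h2 : x - algebraMap k K c ∈ O' := (O'.valuation_le_one_iff _).1 h1.le
    have h3 := O'.add_mem _ _ h2 (h' c)
    simpa using h3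
  · intro x hx
    by_contra hxO
    have h1 : 1 < O.valuation x := by
      by_contra hle
      exact hxO ((O.valuation_le_one_iff _).1 (not_lt.1 hle))
    have hx0 : O.valuation x ≠ 0 := by
      intro h0
      rw [h0] at h1
      exact absurd h1 (not_lt.2 zero_le_one)
    have h2 : O.valuation x⁻¹ < 1 := by
      rw [map_inv₀]
      exact inv_lt_one_of_one_lt₀ h1
    have h3 := hcon _ h2
    have hxne : x ≠ 0 := by
      intro h0
      rw [h0, map_zero] at hx0
      exact hx0 rfl
    have h4 : O'.valuation x ≤ 1 := (O'.valuation_le_one_iff _).2 hx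
    have h5 : O'.valuation x * O'.valuation x⁻¹ = 1 := by
      rw [← map_mul, mul_inv_cancel₀ hxne, map_one]
    have h6 : O'.valuation x * O'.valuation x⁻¹ < 1 := by
      calc O'.valuation x * O'.valuation x⁻¹ ≤ 1 * O'.valuation x⁻¹ :=
            mul_le_mul_left h4 _
        _ < 1 := by rwa [one_mul]
    rw [h5] at h6
    exact lt_irrefl _ h6

end

theorem st_GE2 : ST_GE2 := by
  intro k K _ _ _ _ O O' h hr h' hr' hne
  obtain ⟨g, hg, hg'⟩ := ge2_sep O O' h hr h' hne
  -- the nonconstancy
  have hfin : ∀ f : K, O.valuation (f - algebraMap k K 1) < 1 →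
      O'.valuation (f - algebraMap k K 2) < 1 → f ∉ (algebraMap k K).range := by
    rintro f hf hf' ⟨c, rfl⟩
    rw [← map_sub] at hf hf'
    have h1 := ge2_zero O h _ hf
    have h2 := ge2_zero O' h' _ hf'
    have h3 : (1 : k) = 2 := by rw [← sub_eq_zero.1 h1, ← sub_eq_zero.1 h2]
    norm_num at h3
  have key : ∃ f : K, O.valuation (f - algebraMap k K 1) < 1 ∧
      O'.valuation (f - algebraMap k K 2) < 1 := by
    by_cases hgO : g ∈ O'
    · obtain ⟨c, hc⟩ := hr' g hgO
      have hc0 : c ≠ 0 := by
        rintro rfl
        rw [map_zero, sub_zero] at hc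
        exact hg' hc
      have hcK : algebraMap k K c ≠ 0 := by
        intro h0
        exact hc0 ((algebraMap k K).injective (by rw [h0, map_zero]))
      refine ⟨1 + g / algebraMap k K c, ?_, ?_⟩
      · have : 1 + g / algebraMap k K c - algebraMap k K 1 = g / algebraMap k K c := by
          rw [map_one]; ring
        rw [this, map_div₀, ge2_const O h c hc0, div_one]
        exact hg
      · have : 1 + g / algebraMap k K c - algebraMap k K 2 =
            (g - algebraMap k K c) / algebraMap k K c := by
          rw [map_ofNat]; field_simp; ring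
        rw [this, map_div₀, ge2_const O' h' c hc0, div_one]
        exact hc
    · have h1 : 1 < O'.valuation g := by
        by_contra hle
        exact hgO ((O'.valuation_le_one_iff _).1 (not_lt.1 hle))
      have h2 : O'.valuation (1 + g) = O'.valuation g := by
        rw [add_comm]
        apply Valuation.map_add_eq_of_lt_left
        rwa [map_one]
      have h3 : O.valuation (1 + g) = 1 := by
        rw [← map_one O.valuation]
        apply Valuation.map_add_eq_of_lt_left
        rwa [map_one]
      have h4 : (1 + g) ≠ 0 := by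
        intro h0
        rw [h0, map_zero] at h3
        exact zero_ne_one h3
      refine ⟨1 + g / (1 + g), ?_, ?_⟩
      · have : 1 + g / (1 + g) - algebraMap k K 1 = g / (1 + g) := by
          rw [map_one]; ring
        rw [this, map_div₀, h3, div_one]
        exact hg
      · have : 1 + g / (1 + g) - algebraMap k K 2 = - (1 + g)⁻¹ := by
          rw [map_ofNat]; field_simp; ring
        rw [this, Valuation.map_neg, map_inv₀, h2]
        exact inv_lt_one_of_one_lt₀ h1
  obtain ⟨f, hf, hf'⟩ := key
  exact ⟨f, hfin f hf hf', hf, hf'⟩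

end Pool.Agent.Helper52.RG
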